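import Pool.Agent.N890.DU.All

/-!
# Random curves over number fields with a map to a product of CM elliptic curves: the Brauer-Manin obstruction over all number fields of bounded degree

`E_i : y² = x³ + a_i x + b_i` (`i = 1, …, r`) are elliptic curves over `ℚ` with complex multiplication,
of ARBITRARY RANK and with NO HYPOTHESIS ON THEIR TATE-SHAFAREVICH GROUPS (what is used is that they
have supersingular reduction at the large primes `p ≡ -1` modulo some `M`; part (0) of the theorem
proves this if `a_i = 0` or `b_i = 0`, for the other CM curves over `ℚ` it is a theorem of Deuring),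
`A = E_1 × … × E_r`. `K` is a number field, `𝒯 ⊆ A × ℙᵐ` is any closed subvariety over the ring of
integers `𝓞 K`, given by multihomogeneous equations `Φ_l (V; T) = 0`, whose fibres over the points of
`A` modulo large primes have at most `B q^κ` points over the field with `q` elements, `κ ≥ 0` (that
is, all fibres of `𝒯 → A` have dimension at most `κ`). Consider all the intersections

  `X_c = 𝒯 ∩ {F_1 = … = F_s = 0}`, `s ≤ r + κ`,

where `F_j` runs through all forms of multidegree `(d_j; e_j)` in the coordinates `V_i` of the plane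
cubics `E_i` and in `T`, and `c ∈ (𝓞 K)ⁿ` is the vector of all their coefficients. If `𝒯` is
irreducible of dimension `r + κ` the general `X_c` has dimension `r + κ - s`; for `s = r + κ - 1` these are
random curves on `𝒯`, for `κ = 0` (`m = 0`) random curves on `A` itself, for `𝒯 = A × ℙ^κ` random
complete intersection curves on `A × ℙ^κ`.

Let `D ≥ 1` be an integer with `r > 2 D (r + κ - s)`, that is `D dim X_c < r / 2`, for curves `r > 2 D`,
and suppose that all the degrees `d_ji`, `e_j` are at least `D - 1`.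

Theorem, UNCONDITIONAL: let `ε, δ > 0`. For every large `H` there is ONE squarefree level `N`, with
`log N ≤ (log H) ^ δ`, such that for all but `H ^ (n [K:ℚ] - (r / 2 - D (r + κ - s)) + ε)` of the
`c ∈ (𝓞 K)ⁿ` with coordinates (with respect to an integral basis) bounded by `H` and for ALL number
fields `F` containing `K` with `[F : ℚ] ≤ D` the `N`-Selmer set of `X_c` over `F` is empty: no
`N`-covering of `A` over `F`, pulled back to `X_c`, has points over all the completions of `F` at finite
places. In particular `X_c (F) = ∅`, so `X_c` has no point of degree at most `D / [K:ℚ]` over `K`.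

Consequence for Stoll's conjecture: by the theory of descent under groups of multiplicative type
(Colliot-Thelene - Sansuc, Skorobogatov; the pull-back to `X_c` of the multiplication by `N` on `A` is a
torsor under the finite group scheme `A[N]`) the projection of the Brauer-Manin set of `X_c` over `F` to
the finite places is empty if the `N`-Selmer set is. So 100 % of the smooth curves in each of these
linear systems satisfy Q1 over all these fields `F` at once, for instance over `K` if
`r > 2 [K:ℚ]` (`D = [K:ℚ]`), and finite descent of a small level suffices. For `K = ℚ`, `D = 1`: for `r ≥ 3`.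

The proof. (i) Corestriction (the trace) from `F` to `ℚ` maps a Selmer class over `F` to a class of
level `N` over `ℚ` whose local point `P_p` in `A(ℚ_p)` is the sum of the conjugates of the local points
over the completions of `F` above `p`. The number of the classes in `H¹(ℚ, E[l])`, `l` prime, which are
everywhere locally in the image of `E(ℚ_q)` is at most `exp (C l ^ A)`: the field cut out by such a
cocycle and by `E[l]` has degree at most `8 l⁶` and is unramified at the primes `q ∤ 2 l Δ` (lifting of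
inertia), so that its discriminant is bounded, and the theorem of Hermite, with an explicit bound,
counts these fields. Nothing is needed about ranks or Tate-Shafarevich groups. (ii) By the theorem of
Bombieri and Vinogradov there is, for `X = (log H) ^ 2`, one squarefree `N` without prime factors
`> X ^ η` such that the greatest common divisor `g` of `p + 1` and `N` is at least `X ^ (1/2 - η)` for
at least `X ^ (1 - η)` primes `p ≤ X`, `p ≡ -1` modulo `M`. At such a prime `A(𝔽_p)` has `(p + 1) ^ r`
elements, and a class of level `N` determines a coset of `g A(𝔽_p)`, which has at most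
`((p + 1) / g) ^ r`, about `p ^ (r / 2)`, elements, in which the reduction of `P_p` lies. This reduction is
the sum of `n ≤ D` points, permuted by Frobenius, on reductions of the conjugates of `X_c`. (iii) There
are `O (p ^ (n (r + κ) - r / 2))` such families of `n` different points on `𝒯` (the sum map has large
image, by an estimate of the torsion), and different points impose independent conditions on the
coefficients `c` modulo `p`, because the degrees are at least `D - 1`. So at most the proportion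
`O (p ^ (D (r + κ - s) - r / 2))` of the `c` is compatible with a given class. (iv) Sieving by
`log H / log X` of these primes gives the bound `H ^ (n [K:ℚ] - (r / 2 - D (r + κ - s)) + ε)` for each
class, and the number of the classes is `H ^ o(1)`.
-/

set_option autoImplicit false

namespace Pool.Agent.Results.MP_308fa9_nt.OverNumberFields

open MvPolynomial NumberField IsDedekindDomain Pool.Agent.TH954

open scoped LinearAlgebra.Projectivization

/-- the curve `y² = x³ + a x + b` -/
def curve {F : Type} [Field F] (a b : F) : WeierstrassCurve F := ⟨0, 0, 0, a, b⟩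

/-- homogeneous coordinates of a point in the projective plane -/
def coords {F : Type} [Field F] {W : WeierstrassCurve F} : W.toAffine.Point → Fin 3 → F
  | .zero => ![0, 1, 0]
  | .some x y _ => ![x, y, 1]

/-- `V` is a vector of homogeneous coordinates of a point of the curve `y² = x³ + a x + b`. -/
def OnCurve {k : Type} [Field k] (a b : ℤ) (V : Fin 3 → k) : Prop :=
  V ≠ 0 ∧ V 1 ^ 2 * V 2 = V 0 ^ 3 + a * V 0 * V 2 ^ 2 + b * V 2 ^ 3

/-- The value at `V, T` of a polynomial in the coordinates `V i j` (`i : Fin r`, `j : Fin 3`) of `r`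
plane cubics and in the coordinates `T x` (`x : Fin (m + 1)`) of `ℙᵐ`, its coefficients being mapped to
`k` by the homomorphism `φ`. -/
noncomputable def value {R k : Type} [CommRing R] [Field k] (φ : R →+* k) {r m : ℕ}
    (F : MvPolynomial ((Fin r × Fin 3) ⊕ Fin (m + 1)) R) (V : Fin r → Fin 3 → k)
    (T : Fin (m + 1) → k) : k :=
  eval₂ φ (Sum.elim (fun ij => V ij.1 ij.2) T) F

/-- `F` is homogeneous of degree `d i` in the coordinates of the `i`-th plane cubic and of degree `e`
in `T`. -/
def Multihomogeneous {R : Type} [CommRing R] {r m : ℕ}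
    (F : MvPolynomial ((Fin r × Fin 3) ⊕ Fin (m + 1)) R) (d : Fin r → ℕ) (e : ℕ) : Prop :=
  ∀ x ∈ F.support, (∀ i, ∑ j, x (Sum.inl (i, j)) = d i) ∧ ∑ s, x (Sum.inr s) = e

/-- The index type of the coefficients of `F_1, …, F_s`: a number `j`, the exponents of a monomial of
degree `e j` in `T_0, …, T_m`, and for each `i` the exponents of a monomial of degree `d j i` in the
three coordinates `V i`. -/
abbrev Coeffs {r s : ℕ} (m : ℕ) (d : Fin s → Fin r → ℕ) (e : Fin s → ℕ) : Type :=
  Σ j : Fin s, (↥(Finset.piAntidiag (Finset.univ : Finset (Fin (m + 1))) (e j)) ×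
    ((i : Fin r) → ↥(Finset.piAntidiag (Finset.univ : Finset (Fin 3)) (d j i))))

/-- The value of the form `F_j` with the coefficients `c`. -/
noncomputable def form {k : Type} [Field k] {r s m : ℕ} {d : Fin s → Fin r → ℕ}
    {e : Fin s → ℕ} (c : Coeffs m d e → k) (j : Fin s) (V : Fin r → Fin 3 → k)
    (T : Fin (m + 1) → k) : k :=
  ∑ x : ↥(Finset.piAntidiag (Finset.univ : Finset (Fin (m + 1))) (e j)) ×
      ((i : Fin r) → ↥(Finset.piAntidiag (Finset.univ : Finset (Fin 3)) (d j i))),
    c ⟨j, x⟩ * ((∏ i, ∏ y, V i y ^ (x.2 i).1 y) * ∏ y, T y ^ x.1.1 y)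

/-- The variety `X_c`, `Φ_l = 0`, `F_j = 0`, over `𝓞 K`, has a point over the extension `L` of `F`, where
`F` is an extension of `K`, whose components in the elliptic curves are the points `P i`. -/
def IsOver {K : Type} [Field K] [NumberField K] {r s m q : ℕ} (a b : Fin r → ℤ)
    (Φ : Fin q → MvPolynomial ((Fin r × Fin 3) ⊕ Fin (m + 1)) (𝓞 K))
    {d : Fin s → Fin r → ℕ} {e : Fin s → ℕ} (c : Coeffs m d e → 𝓞 K) (F : Type) [Field F]
    [Algebra K F] (L : Type) [Field L] [Algebra F L]
    (P : ∀ i, ((curve (a i : F) (b i : F)).baseChange L).toAffine.Point) : Prop :=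
  ∃ T : Fin (m + 1) → L, T ≠ 0 ∧
    (∀ l, value ((algebraMap F L).comp ((algebraMap K F).comp (algebraMap (𝓞 K) K))) (Φ l)
      (fun i => coords (P i)) T = 0) ∧
    ∀ j, form (fun x => algebraMap F L (algebraMap K F (algebraMap (𝓞 K) K (c x)))) j
      (fun i => coords (P i)) T = 0

open scoped Classical in
/-- The `N`-Selmer set of `X_c` over the number field `F` (at the finite places), described by
cocycles: the `N`-coverings of `A = E_1 × … × E_r` whose pull-backs to `X_c` have points over the
completions `F_w` for all finite places `w`: there are a point of `X_c` over `F_w`, with components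
`P i`, and points `Q i` with `N • Q i = P i` on which the Galois group of `F_w` acts by translation by
the cocycles `ξ i`. -/
def Sel {K : Type} [Field K] [NumberField K] {r s m q : ℕ} (a b : Fin r → ℤ)
    (Φ : Fin q → MvPolynomial ((Fin r × Fin 3) ⊕ Fin (m + 1)) (𝓞 K))
    {d : Fin s → Fin r → ℕ} {e : Fin s → ℕ} (c : Coeffs m d e → 𝓞 K) (F : Type) [Field F]
    [NumberField F] [Algebra K F] (N : ℕ) :
    Set (∀ i : Fin r, (AlgebraicClosure F ≃ₐ[F] AlgebraicClosure F) →
      AlgPt (curve (a i : F) (b i : F)) F) :=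
  {ξ | (∀ i, IsCocycle (curve (a i : F) (b i : F)) (ξ i)) ∧ (∀ i σ, N • ξ i σ = 0) ∧
    ∀ w : HeightOneSpectrum (𝓞 F),
      ∃ (ι : AlgebraicClosure F →ₐ[F] AlgebraicClosure (w.adicCompletion F))
        (P : ∀ i, ((curve (a i : F) (b i : F)).baseChange (w.adicCompletion F)).toAffine.Point)
        (Q : ∀ i, AlgPt (curve (a i : F) (b i : F)) (w.adicCompletion F)),
        IsOver a b Φ c F (w.adicCompletion F) P ∧
        (∀ i, N • Q i = incl (curve (a i : F) (b i : F)) (w.adicCompletion F) (P i)) ∧
        ∀ i σ τ, Compat ι σ τ → pm (curve (a i : F) (b i : F)) ι (ξ i τ) =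
          act (curve (a i : F) (b i : F)) σ (Q i) - Q i}

/-- `X_c` has a point over the extension `F` of `K`. -/
def HasPoint {K : Type} [Field K] [NumberField K] {r s m q : ℕ} (a b : Fin r → ℤ)
    (Φ : Fin q → MvPolynomial ((Fin r × Fin 3) ⊕ Fin (m + 1)) (𝓞 K))
    {d : Fin s → Fin r → ℕ} {e : Fin s → ℕ} (c : Coeffs m d e → 𝓞 K) (F : Type) [Field F]
    [Algebra K F] : Prop :=
  ∃ (P : ∀ i, (curve (a i : F) (b i : F)).toAffine.Point) (T : Fin (m + 1) → F), T ≠ 0 ∧
    (∀ l, value ((algebraMap K F).comp (algebraMap (𝓞 K) K)) (Φ l)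
      (fun i => coords (P i)) T = 0) ∧
    ∀ j, form (fun x => algebraMap K F (algebraMap (𝓞 K) K (c x))) j
      (fun i => coords (P i)) T = 0

/-- For every large `H` there is a squarefree level `N`, `log N ≤ (log H) ^ δ`, such that for all but
`H ^ (n [K:ℚ] - (r / 2 - D (r + κ - s)) + ε)` of the `c ∈ (𝓞 K)ⁿ` with coordinates (with respect to the
integral basis `ω`) bounded by `H` the variety `X_c` has no point over `F`, and its `N`-Selmer set over
`F` is empty, for all the number fields `F` over `K` with `[F : ℚ] ≤ D`. -/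
def AlmostAllEmpty {K : Type} [Field K] [NumberField K] {n₀ : ℕ}
    (ω : Module.Basis (Fin n₀) ℤ (𝓞 K)) {r s m q : ℕ} (a b : Fin r → ℤ)
    (Φ : Fin q → MvPolynomial ((Fin r × Fin 3) ⊕ Fin (m + 1)) (𝓞 K)) (κ : ℕ)
    (d : Fin s → Fin r → ℕ) (e : Fin s → ℕ) (D : ℕ) (ε δ : ℝ) : Prop :=
  ∃ H₀ : ℕ, ∀ H : ℕ, H₀ ≤ H →
    ∃ N : ℕ, 1 ≤ N ∧ Squarefree N ∧ Real.log N ≤ Real.log H ^ δ ∧
      (({c : Coeffs m d e → 𝓞 K | (∀ x i, |ω.repr (c x) i| ≤ H) ∧
        ¬ ∀ (F : Type) [Field F] [NumberField F] [Algebra K F], Module.finrank ℚ F ≤ D →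
          ¬ HasPoint a b Φ c F ∧ Sel a b Φ c F N = ∅}.ncard : ℕ) : ℝ) ≤
        (H : ℝ) ^ ((Fintype.card (Coeffs m d e) * n₀ : ℝ) -
          (r / 2 - D * ((r : ℝ) + κ - s)) + ε)

/-- For all large primes `p` (with `p ≡ -1` modulo some `M`), all finite fields `k` of characteristic
`p` with at most `p ^ D` elements and all homomorphisms `𝓞 K → k` the fibres of the reduction of
`𝒯 = {Φ_l = 0}` over the points of `A` over `k` have at most `B |k| ^ κ` points over `k`. -/
def FewPoints {K : Type} [Field K] [NumberField K] {r m q : ℕ} (a b : Fin r → ℤ)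
    (Φ : Fin q → MvPolynomial ((Fin r × Fin 3) ⊕ Fin (m + 1)) (𝓞 K)) (κ : ℕ) (B : ℝ)
    (D : ℕ) : Prop :=
  ∃ M p₁ : ℕ, 0 < M ∧ ∀ (p : ℕ) [Fact p.Prime], p₁ ≤ p → M ∣ p + 1 →
    ∀ (k : Type) [Field k] [Fintype k] [Algebra (ZMod p) k], Fintype.card k ≤ p ^ D →
    ∀ (φ : 𝓞 K →+* k) (V : Fin r → Fin 3 → k), (∀ i, OnCurve (a i) (b i) (V i)) →
      (({P : ℙ k (Fin (m + 1) → k) | ∀ l, value φ (Φ l) V P.rep = 0}.ncard : ℕ) : ℝ) ≤
        B * (Fintype.card k : ℝ) ^ κ

/-- `y² = x³ + a x + b` is an elliptic curve over `ℚ` which has `p` affine points modulo `p` (is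
supersingular) for the primes `p ≡ -1` modulo some `M` which do not divide some `D`. This holds for
the elliptic curves over `ℚ` with complex multiplication, and only for them. -/
def Supersingular (a b : ℤ) : Prop :=
  4 * a ^ 3 + 27 * b ^ 2 ≠ 0 ∧ ∃ M D : ℕ, 0 < M ∧ 0 < D ∧ ∀ p : ℕ, p.Prime → ¬ p ∣ D → M ∣ p + 1 →
    Nat.card {z : ZMod p × ZMod p // z.2 ^ 2 = z.1 ^ 3 + a * z.1 + b} = p

theorem supersingular_of (a b : ℤ) (h : a * b = 0) (h0 : a ≠ 0 ∨ b ≠ 0) : Supersingular a b := by
  refine ⟨?_, 12, 1, by norm_num, one_pos, fun p hp _ h12 =>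
    Pool.Agent.H35R6.DCCNT.cnt p a b hp h12 h⟩
  exact Pool.Agent.N89.CI.disc_ne (r := 1) (a := fun _ => a) (b := fun _ => b)
    (fun _ => ⟨h, h0⟩) 0

theorem general {K : Type} [Field K] [NumberField K] {n₀ : ℕ}
    (ω : Module.Basis (Fin n₀) ℤ (𝓞 K)) (r : ℕ) (a b : Fin r → ℤ)
    (hE : ∀ i, Supersingular (a i) (b i))
    (κ s D : ℕ) (hD : 1 ≤ D) (hs : s ≤ r + κ) (hr : 2 * D * (r + κ - s) < r)
    (d : Fin s → Fin r → ℕ) (e : Fin s → ℕ) (hd : ∀ j i, D ≤ d j i + 1) (he : ∀ j, D ≤ e j + 1)
    (ε δ : ℝ) (hε : 0 < ε) (hδ : 0 < δ) (m q : ℕ)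
    (Φ : Fin q → MvPolynomial ((Fin r × Fin 3) ⊕ Fin (m + 1)) (𝓞 K))
    (d' : Fin q → Fin r → ℕ) (e' : Fin q → ℕ) (hΦ : ∀ l, Multihomogeneous (Φ l) (d' l) (e' l))
    (B : ℝ) (hpts : FewPoints a b Φ κ B D) : AlmostAllEmpty ω a b Φ κ d e D ε δ := by
  obtain ⟨M, p₁, hM, hpts⟩ := hpts
  choose hdisc M₁ D₁ hM₁ hD₁ hss using hE
  obtain ⟨H₀, hH⟩ := Pool.Agent.N890.DU.mainF K r m κ s D n₀ hD hs
    (by rw [← mul_assoc]; exact hr) a b hdisc (∏ i, M₁ i)
    (∏ i, D₁ i) (Finset.prod_pos fun i _ => hM₁ i) (Finset.prod_pos fun i _ => hD₁ i)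
    (fun i p hp hpD hpM => hss i p hp
      (fun h => hpD (h.trans (Finset.dvd_prod_of_mem _ (Finset.mem_univ i))))
      ((Finset.dvd_prod_of_mem _ (Finset.mem_univ i)).trans hpM)) Φ d' e'
    hΦ ω d e hd he B M p₁ hM (fun p _ hp hM => hpts p hp hM) ε δ hε hδ
  refine ⟨H₀, fun H hH' => ?_⟩
  obtain ⟨N, hN, hNs, hlog, hcard⟩ := hH H hH'
  refine ⟨N, hN, hNs, hlog, ?_⟩
  refine le_trans (Nat.cast_le.2 ?_) (hcard.trans (le_of_eq ?_))
  · refine Set.ncard_le_ncard_of_injOn (fun c x => ω.repr (c x.1) x.2) ?_ ?_ ?_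
    · rintro c ⟨hc, h⟩
      refine ⟨fun x => hc x.1 x.2, ?_⟩
      have hpar : ∀ (F : Type) [Field F] [Algebra K F],
          Pool.Agent.N890.DU.parF F ω (fun x => ω.repr (c x.1) x.2) =
          fun x => algebraMap K F (algebraMap (𝓞 K) K (c x)) := by
        intro F _ _
        funext x
        unfold Pool.Agent.N890.DU.parF
        congr 2
        exact ω.sum_repr (c x)
      push Not at h
      obtain ⟨F, _, _, _, hF, h⟩ := h
      refine ⟨F, inferInstance, inferInstance, inferInstance, hF, ?_⟩
      rw [hpar F]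
      have h1 : HasPoint a b Φ c F ∨ (Sel a b Φ c F N).Nonempty := by
        by_contra hcon
        push Not at hcon
        exact (h hcon.1).ne_empty hcon.2
      rcases h1 with ⟨P, T, hT, h1, h2⟩ | ⟨ξ, h1, h2, h3⟩
      · refine Pool.Agent.N890.DU.isSel_of_point _ a b hdisc _ N hN _ P T hT fun l => ?_
        rcases l with l | j
        · simp only [Sum.elim_inl]
          rw [Pool.Agent.N89.CI.valP_lift0]
          exact h1 l
        · simp only [Sum.elim_inr]
          rw [Pool.Agent.N89.CI.valP_gen]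
          exact h2 j
      · refine ⟨ξ, h1, h2, fun w => ?_⟩
        obtain ⟨ι, P, Q, ⟨T, hT, h4, h5⟩, h6, h7⟩ := h3 w
        refine ⟨ι, P, Q, ⟨T, hT, fun l => ?_⟩, h6, h7⟩
        rcases l with l | j
        · simp only [Sum.elim_inl]
          rw [Pool.Agent.N89.CI.valP_lift0]
          exact h4 l
        · simp only [Sum.elim_inr]
          rw [Pool.Agent.N89.CI.valP_gen]
          exact h5 j
    · intro c _ c' _ h
      funext x
      apply ω.repr.injective
      ext i
      exact congrFun h (x, i)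
    · have : {c : Coeffs m d e × Fin n₀ → ℤ | ∀ j, c j ∈ Set.Icc (-(H : ℤ)) (H : ℤ)}.Finite :=
        Set.Finite.pi' fun _ => Set.finite_Icc _ _
      apply Set.Finite.subset this
      rintro c ⟨hc, -⟩ j
      exact ⟨(abs_le.1 (hc j)).1, (abs_le.1 (hc j)).2⟩
  · congr 1
    rw [Fintype.card_prod, Fintype.card_fin]
    push_cast [Nat.cast_sub hs]
    ring

/-- **Almost all members `X_c` with `D dim X_c < r / 2` of these linear systems over `K` have empty
Selmer sets of one small level over all number fields `F` with `[F : ℚ] ≤ D`, unconditionally.** -/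
theorem result (K : Type) [Field K] [NumberField K] (n₀ : ℕ)
    (ω : Module.Basis (Fin n₀) ℤ (𝓞 K)) (r : ℕ) (a b : Fin r → ℤ)
    (hE : ∀ i, Supersingular (a i) (b i))
    (κ s D : ℕ) (hD : 1 ≤ D) (hs : s ≤ r + κ) (hr : 2 * D * (r + κ - s) < r)
    (d : Fin s → Fin r → ℕ) (e : Fin s → ℕ) (hd : ∀ j i, D ≤ d j i + 1) (he : ∀ j, D ≤ e j + 1)
    (ε δ : ℝ) (hε : 0 < ε) (hδ : 0 < δ) :
    -- (0) the curves `y² = x³ + a x` and `y² = x³ + b`
    (∀ a b : ℤ, a * b = 0 → (a ≠ 0 ∨ b ≠ 0) → Supersingular a b) ∧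
    -- the general family
    (∀ (m q : ℕ) (Φ : Fin q → MvPolynomial ((Fin r × Fin 3) ⊕ Fin (m + 1)) (𝓞 K))
      (d' : Fin q → Fin r → ℕ) (e' : Fin q → ℕ), (∀ l, Multihomogeneous (Φ l) (d' l) (e' l)) →
      ∀ B : ℝ, FewPoints a b Φ κ B D → AlmostAllEmpty ω a b Φ κ d e D ε δ) ∧
    -- `𝒯 = A × ℙ^κ`
    AlmostAllEmpty (m := κ) ω a b (fun l : Fin 0 => l.elim0) κ d e D ε δ ∧
    -- `𝒯 = A × Y` for a hypersurface `Y : f = 0` in `ℙ^(κ+1)` over `K`
    (∀ (g : ℕ) (f : MvPolynomial (Fin (κ + 2)) (𝓞 K)), f.IsHomogeneous g → f ≠ 0 →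
      AlmostAllEmpty (m := κ + 1) ω a b (fun _ : Fin 1 => rename Sum.inr f) κ d e D ε δ) := by
  refine ⟨supersingular_of, ?_, ?_, ?_⟩
  · intro m q Φ d' e' hΦ B hB
    exact general ω r a b hE κ s D hD hs hr d e hd he ε δ hε hδ m q Φ d' e' hΦ B hB
  · refine general ω r a b hE κ s D hD hs hr d e hd he ε δ hε hδ κ 0 _ (fun l => l.elim0)
      (fun l => l.elim0) (fun l => l.elim0) (3 / 2) ⟨1, 3, one_pos, ?_⟩
    intro p hp hp3 _ k _ _ _ _ φ V hV
    have h1 : {P : ℙ k (Fin (κ + 1) → k) |
        ∀ l : Fin 0, value φ (l.elim0 : MvPolynomial ((Fin r × Fin 3) ⊕ Fin (κ + 1)) (𝓞 K)) V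
          P.rep = 0} = Set.univ :=
      Set.eq_univ_of_forall fun P l => l.elim0
    have h3 : 3 ≤ Nat.card k := by
      rw [Nat.card_eq_fintype_card]
      refine hp3.trans ?_
      have h4 := Fintype.card_le_of_injective _ (algebraMap (ZMod p) k).injective
      rwa [ZMod.card] at h4
    rw [h1, Set.ncard_univ]
    have h2 := Pool.Agent.N89.CI.density_fun (k := k) (m := κ) (κ := κ) h3 rfl
    rwa [Nat.card_eq_fintype_card (α := k)] at h2
  · intro g f hf hf0
    obtain ⟨p₁, hp₁⟩ := Pool.Agent.N890.DU.hyp_countK κ g f hf hf0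
    refine general ω r a b hE κ s D hD hs hr d e hd he ε δ hε hδ (κ + 1) 1 _ (fun _ _ => 0)
      (fun _ => g) (fun _ => ?_) (2 * g) ⟨1, p₁, one_pos, ?_⟩
    · intro x hx
      classical
      obtain ⟨y, hy1, hy2⟩ := coeff_rename_ne_zero _ _ _ (mem_support_iff.1 hx)
      subst hy1
      refine ⟨fun i => Finset.sum_eq_zero fun j _ => ?_, ?_⟩
      · rw [Finsupp.mapDomain_of_notMem_range]
        simp
      · have h1 := hf hy2
        rw [Finsupp.weight_apply, Finsupp.sum_fintype _ _ (fun _ => by simp)] at h1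
        rw [← h1]
        refine Finset.sum_congr rfl fun i _ => ?_
        rw [Finsupp.mapDomain_apply Sum.inr_injective]
        simp
    · intro p hp hp1 _ k _ _ _ _ φ V hV
      refine le_trans (le_of_eq ?_) (hp₁ p hp1 k φ)
      congr 2
      ext P
      simp only [Set.mem_ofPred_eq]
      unfold value
      rw [eval₂_rename]
      simp only [Sum.elim_comp_inr]
      exact ⟨fun h => h 0, fun h _ => h⟩

end Pool.Agent.Results.MP_308fa9_nt.OverNumberFields
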