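import Pool.Agent.N756.RW.MainDP
import Pool.Agent.N24.RW.All

/-!
# Random orbits of thin groups and the Brauer-Manin obstruction for curves which map to a product of CM elliptic curves

`E_i : y² = x³ + a_i x + b_i` (`i = 1, …, r`) are elliptic curves over `ℚ` with complex multiplication,
of arbitrary rank and without hypothesis on their Tate-Shafarevich groups, `A = E_1 × … × E_r`, `K` is a
number field, `𝒯 ⊆ A × ℙᵐ` a closed subvariety over `𝓞 K` with fibres of dimension at most `κ` over `A`,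
and `X_c = 𝒯 ∩ {F_1 = … = F_s = 0}`, where `F_j` runs through all forms of multidegree `(d_j; e_j)` and
`c ∈ (𝓞 K)ⁿ` is the vector of all their coefficients; `D ≥ 1`, `r > 2 D (r + κ - s)` (for random curves
`r > 2 D`), and the degrees are at least `D - 1`. This is the setting of `OverNumberFields` (helper890).

Call `X_c` obstructed if there is ONE squarefree level `N` such that, for ALL number fields `F`
containing `K` with `[F : ℚ] ≤ D`, the variety `X_c` has no point over `F` and its `N`-Selmer set over `F`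
is empty. By the theory of descent the Brauer-Manin set of `X_c` over `F`, projected to the finite
places, is then empty, so that `X_c` (if it is a smooth curve) satisfies Q1 over all these `F`.

Theorem, UNCONDITIONAL: (1) the set of the `c` in `(𝓞 K)ⁿ ≅ ℤ ^ (n [K:ℚ])` for which `X_c` is NOT
obstructed is pronull: for every `M` its closure in the product of the `(𝓞 K ⊗ ℤ_p)ⁿ` over the primes
`p ∤ M` has Haar measure zero. (2) Let `s_0, …, s_m` be integral matrices of size `n [K:ℚ] ≥ 2` and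
determinant one which generate `SL (ℤ/q)` for all `q` prime to some `q₀`; by strong approximation every
finite set that generates a Zariski dense subgroup of `SL` is such a set, for instance generators of a
thin subgroup, of infinite index in `SL (ℤ)`. Let `v ≠ 0`, and let `c_0 = v`, `c_(n+1) = s_(w n) c_n` for
independent uniformly distributed `w n`. Then almost surely `X_(c_n)` is obstructed for all `n` outside
a set of density zero.

The orbits have only exponential growth (in the length) with a small exponent, a thin orbit has far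
too few points of a given size for a statement about boxes to apply to it; what makes (2) possible is
(1), which is stronger than the density one theorem for boxes in a different direction: one needs
obstructions which are visible modulo ONE integer `q`. The proof of (1): for `q` a product of about
`X ^ (1 - η)` primes `p ≤ X` such that `p + 1` has a large divisor in common with a squarefree `N` with
prime factors `≤ X ^ η` (theorem of Bombieri and Vinogradov) the number of the Selmer classes of level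
`N` (over all `F` at once, by corestriction to `ℚ`) is at most `exp (C X ^ (1/4))`, and each of them is
compatible with at most `∏_(p ∣ q) (B p ^ (-γ))` of the residue classes of `c` modulo `q`. The proof of (2)
from (1) is the engine of helper24 (equidistribution of random walks in `SL (ℤ/q)` and large orbits of
`SL (ℤ/q)` on primitive vectors).
-/

set_option autoImplicit false

namespace Pool.Agent.Results.MP_308fa9_nt.RandomOrbits

open MeasureTheory Filter Topology
open Pool.Agent.N24.RW (Walk orb words ProNull AlmostNever)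

open MvPolynomial NumberField IsDedekindDomain Pool.Agent.TH954

open scoped LinearAlgebra.Projectivization

/-- the curve `y² = x³ + a x + b` -/
def curve {F : Type} [Field F] (a b : F) : WeierstrassCurve F := ⟨0, 0, 0, a, b⟩

/-- homogeneous coordinates of a point in the projective plane -/
def coords {F : Type} [Field F] {W : WeierstrassCurve F} : W.toAffine.Point → Fin 3 → F
  | .zero => ![0, 1, 0]
  | .some x y _ => ![x, y, 1]

/-- `V` is a vector of homogeneous coordinates of a point of the curve `y² = x³ + a x + b`. -/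
def OnCurve {k : Type} [Field k] (a b : ℤ) (V : Fin 3 → k) : Prop :=
  V ≠ 0 ∧ V 1 ^ 2 * V 2 = V 0 ^ 3 + a * V 0 * V 2 ^ 2 + b * V 2 ^ 3

/-- The value at `V, T` of a polynomial in the coordinates `V i j` (`i : Fin r`, `j : Fin 3`) of `r`
plane cubics and in the coordinates `T x` (`x : Fin (m + 1)`) of `ℙᵐ`, its coefficients being mapped to
`k` by the homomorphism `φ`. -/
noncomputable def value {R k : Type} [CommRing R] [Field k] (φ : R →+* k) {r m : ℕ}
    (F : MvPolynomial ((Fin r × Fin 3) ⊕ Fin (m + 1)) R) (V : Fin r → Fin 3 → k)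
    (T : Fin (m + 1) → k) : k :=
  eval₂ φ (Sum.elim (fun ij => V ij.1 ij.2) T) F

/-- `F` is homogeneous of degree `d i` in the coordinates of the `i`-th plane cubic and of degree `e`
in `T`. -/
def Multihomogeneous {R : Type} [CommRing R] {r m : ℕ}
    (F : MvPolynomial ((Fin r × Fin 3) ⊕ Fin (m + 1)) R) (d : Fin r → ℕ) (e : ℕ) : Prop :=
  ∀ x ∈ F.support, (∀ i, ∑ j, x (Sum.inl (i, j)) = d i) ∧ ∑ s, x (Sum.inr s) = e

/-- The index type of the coefficients of `F_1, …, F_s`: a number `j`, the exponents of a monomial of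
degree `e j` in `T_0, …, T_m`, and for each `i` the exponents of a monomial of degree `d j i` in the
three coordinates `V i`. -/
abbrev Coeffs {r s : ℕ} (m : ℕ) (d : Fin s → Fin r → ℕ) (e : Fin s → ℕ) : Type :=
  Σ j : Fin s, (↥(Finset.piAntidiag (Finset.univ : Finset (Fin (m + 1))) (e j)) ×
    ((i : Fin r) → ↥(Finset.piAntidiag (Finset.univ : Finset (Fin 3)) (d j i))))

/-- The value of the form `F_j` with the coefficients `c`. -/
noncomputable def form {k : Type} [Field k] {r s m : ℕ} {d : Fin s → Fin r → ℕ}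
    {e : Fin s → ℕ} (c : Coeffs m d e → k) (j : Fin s) (V : Fin r → Fin 3 → k)
    (T : Fin (m + 1) → k) : k :=
  ∑ x : ↥(Finset.piAntidiag (Finset.univ : Finset (Fin (m + 1))) (e j)) ×
      ((i : Fin r) → ↥(Finset.piAntidiag (Finset.univ : Finset (Fin 3)) (d j i))),
    c ⟨j, x⟩ * ((∏ i, ∏ y, V i y ^ (x.2 i).1 y) * ∏ y, T y ^ x.1.1 y)

/-- The variety `X_c`, `Φ_l = 0`, `F_j = 0`, over `𝓞 K`, has a point over the extension `L` of `F`, where
`F` is an extension of `K`, whose components in the elliptic curves are the points `P i`. -/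
def IsOver {K : Type} [Field K] [NumberField K] {r s m q : ℕ} (a b : Fin r → ℤ)
    (Φ : Fin q → MvPolynomial ((Fin r × Fin 3) ⊕ Fin (m + 1)) (𝓞 K))
    {d : Fin s → Fin r → ℕ} {e : Fin s → ℕ} (c : Coeffs m d e → 𝓞 K) (F : Type) [Field F]
    [Algebra K F] (L : Type) [Field L] [Algebra F L]
    (P : ∀ i, ((curve (a i : F) (b i : F)).baseChange L).toAffine.Point) : Prop :=
  ∃ T : Fin (m + 1) → L, T ≠ 0 ∧
    (∀ l, value ((algebraMap F L).comp ((algebraMap K F).comp (algebraMap (𝓞 K) K))) (Φ l)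
      (fun i => coords (P i)) T = 0) ∧
    ∀ j, form (fun x => algebraMap F L (algebraMap K F (algebraMap (𝓞 K) K (c x)))) j
      (fun i => coords (P i)) T = 0

open scoped Classical in
/-- The `N`-Selmer set of `X_c` over the number field `F` (at the finite places), described by
cocycles: the `N`-coverings of `A = E_1 × … × E_r` whose pull-backs to `X_c` have points over the
completions `F_w` for all finite places `w`: there are a point of `X_c` over `F_w`, with components
`P i`, and points `Q i` with `N • Q i = P i` on which the Galois group of `F_w` acts by translation by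
the cocycles `ξ i`. -/
def Sel {K : Type} [Field K] [NumberField K] {r s m q : ℕ} (a b : Fin r → ℤ)
    (Φ : Fin q → MvPolynomial ((Fin r × Fin 3) ⊕ Fin (m + 1)) (𝓞 K))
    {d : Fin s → Fin r → ℕ} {e : Fin s → ℕ} (c : Coeffs m d e → 𝓞 K) (F : Type) [Field F]
    [NumberField F] [Algebra K F] (N : ℕ) :
    Set (∀ i : Fin r, (AlgebraicClosure F ≃ₐ[F] AlgebraicClosure F) →
      AlgPt (curve (a i : F) (b i : F)) F) :=
  {ξ | (∀ i, IsCocycle (curve (a i : F) (b i : F)) (ξ i)) ∧ (∀ i σ, N • ξ i σ = 0) ∧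
    ∀ w : HeightOneSpectrum (𝓞 F),
      ∃ (ι : AlgebraicClosure F →ₐ[F] AlgebraicClosure (w.adicCompletion F))
        (P : ∀ i, ((curve (a i : F) (b i : F)).baseChange (w.adicCompletion F)).toAffine.Point)
        (Q : ∀ i, AlgPt (curve (a i : F) (b i : F)) (w.adicCompletion F)),
        IsOver a b Φ c F (w.adicCompletion F) P ∧
        (∀ i, N • Q i = incl (curve (a i : F) (b i : F)) (w.adicCompletion F) (P i)) ∧
        ∀ i σ τ, Compat ι σ τ → pm (curve (a i : F) (b i : F)) ι (ξ i τ) =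
          act (curve (a i : F) (b i : F)) σ (Q i) - Q i}

/-- `X_c` has a point over the extension `F` of `K`. -/
def HasPoint {K : Type} [Field K] [NumberField K] {r s m q : ℕ} (a b : Fin r → ℤ)
    (Φ : Fin q → MvPolynomial ((Fin r × Fin 3) ⊕ Fin (m + 1)) (𝓞 K))
    {d : Fin s → Fin r → ℕ} {e : Fin s → ℕ} (c : Coeffs m d e → 𝓞 K) (F : Type) [Field F]
    [Algebra K F] : Prop :=
  ∃ (P : ∀ i, (curve (a i : F) (b i : F)).toAffine.Point) (T : Fin (m + 1) → F), T ≠ 0 ∧
    (∀ l, value ((algebraMap K F).comp (algebraMap (𝓞 K) K)) (Φ l)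
      (fun i => coords (P i)) T = 0) ∧
    ∀ j, form (fun x => algebraMap K F (algebraMap (𝓞 K) K (c x))) j
      (fun i => coords (P i)) T = 0

/-- `X_c` has, for one squarefree level `N`, no point and an empty `N`-Selmer set over `F`, for ALL
number fields `F` over `K` with `[F : ℚ] ≤ D`. -/
def Obstructed {K : Type} [Field K] [NumberField K] {r s m q : ℕ} (a b : Fin r → ℤ)
    (Φ : Fin q → MvPolynomial ((Fin r × Fin 3) ⊕ Fin (m + 1)) (𝓞 K))
    {d : Fin s → Fin r → ℕ} {e : Fin s → ℕ} (D : ℕ) (c : Coeffs m d e → 𝓞 K) : Prop :=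
  ∃ N : ℕ, 1 ≤ N ∧ Squarefree N ∧
    ∀ (F : Type) [Field F] [NumberField F] [Algebra K F], Module.finrank ℚ F ≤ D →
      ¬ HasPoint a b Φ c F ∧ Sel a b Φ c F N = ∅

/-- the vector in `(𝓞 K)ⁿ` with the coordinates `c` with respect to the integral basis `ω` -/
noncomputable def vect {K : Type} [Field K] [NumberField K] {n₀ : ℕ}
    (ω : Module.Basis (Fin n₀) ℤ (𝓞 K)) {J : Type} (c : J × Fin n₀ → ℤ) : J → 𝓞 K :=
  fun x => ∑ i, c (x, i) • ω i

open scoped Classical in
/-- The `c` for which `X_c` is not obstructed are pronull, and almost surely the random orbit of any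
nonzero vector under any walk `W` meets them only at a set of times of density zero. -/
def ObstructedAlongOrbits {K : Type} [Field K] [NumberField K] {n₀ : ℕ}
    (ω : Module.Basis (Fin n₀) ℤ (𝓞 K)) {r s m q : ℕ} (a b : Fin r → ℤ)
    (Φ : Fin q → MvPolynomial ((Fin r × Fin 3) ⊕ Fin (m + 1)) (𝓞 K))
    (d : Fin s → Fin r → ℕ) (e : Fin s → ℕ) (D : ℕ) : Prop :=
  ProNull {c : Coeffs m d e × Fin n₀ → ℤ | ¬ Obstructed a b Φ D (vect ω c)} ∧
  (2 ≤ Fintype.card (Coeffs m d e × Fin n₀) →
    ∀ (W : Walk (Coeffs m d e × Fin n₀)) (v : Coeffs m d e × Fin n₀ → ℤ), v ≠ 0 →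
    ∀ᵐ w ∂(words W.m), Tendsto (fun N : ℕ =>
      (({n : ℕ | n < N ∧ ¬ Obstructed a b Φ D (vect ω (orb W v w n))}.ncard : ℕ) : ℝ) / (N : ℝ))
      atTop (𝓝 0))

/-- For all large primes `p` (with `p ≡ -1` modulo some `M`), all finite fields `k` of characteristic
`p` with at most `p ^ D` elements and all homomorphisms `𝓞 K → k` the fibres of the reduction of
`𝒯 = {Φ_l = 0}` over the points of `A` over `k` have at most `B |k| ^ κ` points over `k`. -/
def FewPoints {K : Type} [Field K] [NumberField K] {r m q : ℕ} (a b : Fin r → ℤ)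
    (Φ : Fin q → MvPolynomial ((Fin r × Fin 3) ⊕ Fin (m + 1)) (𝓞 K)) (κ : ℕ) (B : ℝ)
    (D : ℕ) : Prop :=
  ∃ M p₁ : ℕ, 0 < M ∧ ∀ (p : ℕ) [Fact p.Prime], p₁ ≤ p → M ∣ p + 1 →
    ∀ (k : Type) [Field k] [Fintype k] [Algebra (ZMod p) k], Fintype.card k ≤ p ^ D →
    ∀ (φ : 𝓞 K →+* k) (V : Fin r → Fin 3 → k), (∀ i, OnCurve (a i) (b i) (V i)) →
      (({P : ℙ k (Fin (m + 1) → k) | ∀ l, value φ (Φ l) V P.rep = 0}.ncard : ℕ) : ℝ) ≤
        B * (Fintype.card k : ℝ) ^ κ

/-- `y² = x³ + a x + b` is an elliptic curve over `ℚ` which has `p` affine points modulo `p` (is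
supersingular) for the primes `p ≡ -1` modulo some `M` which do not divide some `D`. This holds for
the elliptic curves over `ℚ` with complex multiplication, and only for them. -/
def Supersingular (a b : ℤ) : Prop :=
  4 * a ^ 3 + 27 * b ^ 2 ≠ 0 ∧ ∃ M D : ℕ, 0 < M ∧ 0 < D ∧ ∀ p : ℕ, p.Prime → ¬ p ∣ D → M ∣ p + 1 →
    Nat.card {z : ZMod p × ZMod p // z.2 ^ 2 = z.1 ^ 3 + a * z.1 + b} = p

theorem supersingular_of (a b : ℤ) (h : a * b = 0) (h0 : a ≠ 0 ∨ b ≠ 0) : Supersingular a b := by
  refine ⟨?_, 12, 1, by norm_num, one_pos, fun p hp _ h12 =>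
    Pool.Agent.H35R6.DCCNT.cnt p a b hp h12 h⟩
  exact Pool.Agent.N89.CI.disc_ne (r := 1) (a := fun _ => a) (b := fun _ => b)
    (fun _ => ⟨h, h0⟩) 0

theorem null {K : Type} [Field K] [NumberField K] {n₀ : ℕ}
    (ω : Module.Basis (Fin n₀) ℤ (𝓞 K)) (r : ℕ) (a b : Fin r → ℤ)
    (hE : ∀ i, Supersingular (a i) (b i))
    (κ s D : ℕ) (hD : 1 ≤ D) (hs : s ≤ r + κ) (hr : 2 * D * (r + κ - s) < r)
    (d : Fin s → Fin r → ℕ) (e : Fin s → ℕ) (hd : ∀ j i, D ≤ d j i + 1) (he : ∀ j, D ≤ e j + 1)
    (m q : ℕ)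
    (Φ : Fin q → MvPolynomial ((Fin r × Fin 3) ⊕ Fin (m + 1)) (𝓞 K))
    (d' : Fin q → Fin r → ℕ) (e' : Fin q → ℕ) (hΦ : ∀ l, Multihomogeneous (Φ l) (d' l) (e' l))
    (B : ℝ) (hpts : FewPoints a b Φ κ B D) :
    ProNull {c : Coeffs m d e × Fin n₀ → ℤ | ¬ Obstructed a b Φ D (vect ω c)} := by
  obtain ⟨M, p₁, hM, hpts⟩ := hpts
  choose hdisc M₁ D₁ hM₁ hD₁ hss using hE
  have hsel := Pool.Agent.N756.RW.selNull K r m κ s D n₀ hD hs
    (by rw [← mul_assoc]; exact hr) a b hdisc (∏ i, M₁ i)
    (∏ i, D₁ i) (Finset.prod_pos fun i _ => hM₁ i) (Finset.prod_pos fun i _ => hD₁ i)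
    (fun i p hp hpD hpM => hss i p hp
      (fun h => hpD (h.trans (Finset.dvd_prod_of_mem _ (Finset.mem_univ i))))
      ((Finset.dvd_prod_of_mem _ (Finset.mem_univ i)).trans hpM)) Φ d' e'
    hΦ ω d e hd he B M p₁ hM (fun p _ hp hM => hpts p hp hM)
  intro M' hM' ε hε
  obtain ⟨Q, hQ, hQM, h⟩ := hsel M' hM' ε hε
  refine ⟨Q, hQ, hQM, le_trans ?_ h⟩
  have : NeZero Q := ⟨hQ.ne'⟩
  refine Nat.cast_le.2 (Set.ncard_le_ncard (Set.image_mono ?_) (Set.toFinite _))
  intro c hc N hN hNs
  have hc' : ¬ Obstructed a b Φ D (vect ω c) := hc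
  unfold Obstructed at hc'
  push Not at hc'
  obtain ⟨F, _, _, _, hF, h⟩ := hc' N hN hNs
  refine ⟨F, inferInstance, inferInstance, inferInstance, hF, ?_⟩
  have h1 : HasPoint a b Φ (vect ω c) F ∨ (Sel a b Φ (vect ω c) F N).Nonempty := by
    by_contra hcon
    push Not at hcon
    exact (h hcon.1).ne_empty hcon.2
  rcases h1 with ⟨P, T, hT, h1, h2⟩ | ⟨ξ, h1, h2, h3⟩
  · refine Pool.Agent.N890.DU.isSel_of_point _ a b hdisc _ N hN _ P T hT fun l => ?_
    rcases l with l | j
    · simp only [Sum.elim_inl]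
      rw [Pool.Agent.N89.CI.valP_lift0]
      exact h1 l
    · simp only [Sum.elim_inr]
      rw [Pool.Agent.N89.CI.valP_gen]
      exact h2 j
  · refine ⟨ξ, h1, h2, fun w => ?_⟩
    obtain ⟨ι, P, Q, ⟨T, hT, h4, h5⟩, h6, h7⟩ := h3 w
    refine ⟨ι, P, Q, ⟨T, hT, fun l => ?_⟩, h6, h7⟩
    rcases l with l | j
    · simp only [Sum.elim_inl]
      rw [Pool.Agent.N89.CI.valP_lift0]
      exact h4 l
    · simp only [Sum.elim_inr]
      rw [Pool.Agent.N89.CI.valP_gen]
      exact h5 j

theorem general {K : Type} [Field K] [NumberField K] {n₀ : ℕ}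
    (ω : Module.Basis (Fin n₀) ℤ (𝓞 K)) (r : ℕ) (a b : Fin r → ℤ)
    (hE : ∀ i, Supersingular (a i) (b i))
    (κ s D : ℕ) (hD : 1 ≤ D) (hs : s ≤ r + κ) (hr : 2 * D * (r + κ - s) < r)
    (d : Fin s → Fin r → ℕ) (e : Fin s → ℕ) (hd : ∀ j i, D ≤ d j i + 1) (he : ∀ j, D ≤ e j + 1)
    (m q : ℕ)
    (Φ : Fin q → MvPolynomial ((Fin r × Fin 3) ⊕ Fin (m + 1)) (𝓞 K))
    (d' : Fin q → Fin r → ℕ) (e' : Fin q → ℕ) (hΦ : ∀ l, Multihomogeneous (Φ l) (d' l) (e' l))
    (B : ℝ) (hpts : FewPoints a b Φ κ B D) : ObstructedAlongOrbits ω a b Φ d e D := by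
  have hnull := null ω r a b hE κ s D hD hs hr d e hd he m q Φ d' e' hΦ B hpts
  classical
  refine ⟨hnull, fun h2 W v hv => ?_⟩
  have h3 := @Pool.Agent.N24.RW.main (Coeffs m d e × Fin n₀) _ _ h2 W v hv _ hnull
  exact h3

/-- **Along the random orbits of thin groups almost all members `X_c` of these linear systems over `K`
have, for one squarefree level, empty Selmer sets over all number fields `F` with `[F : ℚ] ≤ D`,
unconditionally; the exceptional set is pronull.** -/
theorem result (K : Type) [Field K] [NumberField K] (n₀ : ℕ)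
    (ω : Module.Basis (Fin n₀) ℤ (𝓞 K)) (r : ℕ) (a b : Fin r → ℤ)
    (hE : ∀ i, Supersingular (a i) (b i))
    (κ s D : ℕ) (hD : 1 ≤ D) (hs : s ≤ r + κ) (hr : 2 * D * (r + κ - s) < r)
    (d : Fin s → Fin r → ℕ) (e : Fin s → ℕ) (hd : ∀ j i, D ≤ d j i + 1)
    (he : ∀ j, D ≤ e j + 1) :
    -- (0) the curves `y² = x³ + a x` and `y² = x³ + b`
    (∀ a b : ℤ, a * b = 0 → (a ≠ 0 ∨ b ≠ 0) → Supersingular a b) ∧
    -- the general family
    (∀ (m q : ℕ) (Φ : Fin q → MvPolynomial ((Fin r × Fin 3) ⊕ Fin (m + 1)) (𝓞 K))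
      (d' : Fin q → Fin r → ℕ) (e' : Fin q → ℕ), (∀ l, Multihomogeneous (Φ l) (d' l) (e' l)) →
      ∀ B : ℝ, FewPoints a b Φ κ B D → ObstructedAlongOrbits ω a b Φ d e D) ∧
    -- `𝒯 = A × ℙ^κ`
    ObstructedAlongOrbits (m := κ) ω a b (fun l : Fin 0 => l.elim0) d e D ∧
    -- `𝒯 = A × Y` for a hypersurface `Y : f = 0` in `ℙ^(κ+1)` over `K`
    (∀ (g : ℕ) (f : MvPolynomial (Fin (κ + 2)) (𝓞 K)), f.IsHomogeneous g → f ≠ 0 →
      ObstructedAlongOrbits (m := κ + 1) ω a b (fun _ : Fin 1 => rename Sum.inr f) d e D) := by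
  refine ⟨supersingular_of, ?_, ?_, ?_⟩
  · intro m q Φ d' e' hΦ B hB
    exact general ω r a b hE κ s D hD hs hr d e hd he m q Φ d' e' hΦ B hB
  · refine general ω r a b hE κ s D hD hs hr d e hd he κ 0 _ (fun l => l.elim0)
      (fun l => l.elim0) (fun l => l.elim0) (3 / 2) ⟨1, 3, one_pos, ?_⟩
    intro p hp hp3 _ k _ _ _ _ φ V hV
    have h1 : {P : ℙ k (Fin (κ + 1) → k) |
        ∀ l : Fin 0, value φ (l.elim0 : MvPolynomial ((Fin r × Fin 3) ⊕ Fin (κ + 1)) (𝓞 K)) V
          P.rep = 0} = Set.univ :=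
      Set.eq_univ_of_forall fun P l => l.elim0
    have h3 : 3 ≤ Nat.card k := by
      rw [Nat.card_eq_fintype_card]
      refine hp3.trans ?_
      have h4 := Fintype.card_le_of_injective _ (algebraMap (ZMod p) k).injective
      rwa [ZMod.card] at h4
    rw [h1, Set.ncard_univ]
    have h2 := Pool.Agent.N89.CI.density_fun (k := k) (m := κ) (κ := κ) h3 rfl
    rwa [Nat.card_eq_fintype_card (α := k)] at h2
  · intro g f hf hf0
    obtain ⟨p₁, hp₁⟩ := Pool.Agent.N890.DU.hyp_countK κ g f hf hf0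
    refine general ω r a b hE κ s D hD hs hr d e hd he (κ + 1) 1 _ (fun _ _ => 0)
      (fun _ => g) (fun _ => ?_) (2 * g) ⟨1, p₁, one_pos, ?_⟩
    · intro x hx
      classical
      obtain ⟨y, hy1, hy2⟩ := coeff_rename_ne_zero _ _ _ (mem_support_iff.1 hx)
      subst hy1
      refine ⟨fun i => Finset.sum_eq_zero fun j _ => ?_, ?_⟩
      · rw [Finsupp.mapDomain_of_notMem_range]
        simp
      · have h1 := hf hy2
        rw [Finsupp.weight_apply, Finsupp.sum_fintype _ _ (fun _ => by simp)] at h1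
        rw [← h1]
        refine Finset.sum_congr rfl fun i _ => ?_
        rw [Finsupp.mapDomain_apply Sum.inr_injective]
        simp
    · intro p hp hp1 _ k _ _ _ _ φ V hV
      refine le_trans (le_of_eq ?_) (hp₁ p hp1 k φ)
      congr 2
      ext P
      simp only [Set.mem_ofPred_eq]
      unfold value
      rw [eval₂_rename]
      simp only [Sum.elim_comp_inr]
      exact ⟨fun h => h 0, fun h _ => h⟩

end Pool.Agent.Results.MP_308fa9_nt.RandomOrbits
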