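import Pool.Agent.N54.TQ.UnsD
import Pool.Agent.N54.TQ.ToN

/-!
# Thin sequences of curves over number fields with a map to a product of CM elliptic curves: no points of bounded degree, and the Brauer-Manin obstruction

`A = E_1 × … × E_r`, the number field `K`, the closed subvariety `𝒯 ⊆ A × ℙᵐ` over `𝓞 K` and the
intersections `X_c = 𝒯 ∩ {F_1 = … = F_s = 0}`, `s ≤ r + κ`, where `c ∈ (𝓞 K)ⁿ` is the vector of all the
coefficients of forms `F_j` of multidegree `(d_j; e_j)`, are as in `OverNumberFields` (helper890): the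
`E_i` are elliptic curves over `ℚ` with complex multiplication, of arbitrary rank and with no hypothesis
on their Tate-Shafarevich groups, all fibres of `𝒯 → A` have dimension at most `κ` (at most `B q^κ` points
over the field with `q` elements, for large characteristics `p ≡ -1` modulo some number), `D ≥ 1`,
`r > 2 D (r + κ - s)` (for curves `r > 2 D`), and the degrees `d_ji`, `e_j` are at least `D - 1`.

There almost all `c` in a box are considered. Here all the coordinates of all the coefficients (with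
respect to an integral basis of `𝓞 K`) are functions of ONE variable: they are `⌊P_y(n)⌋`, where the
`P_y` are generalised polynomials (finite sums of real powers of `n` with real coefficients) with
distinct positive non-integral leading exponents and positive leading coefficients, for example
`⌊n ^ √(q_y)⌋` with different primes `q_y`. Only `N` of the more than `N ^ (∑ θ_y)` members of the box
(`θ_y` the leading exponents) occur.

Theorem, UNCONDITIONAL: there is `η > 0` such that for every `δ > 0` and every large `N` there is ONE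
squarefree level `L`, with `log L ≤ (log N) ^ δ`, such that for all but `N ^ (1 - η)` of the integers `n`
between `N` and `2 N` (so also for almost all primes `n`) and for ALL number fields `F` containing `K`
with `[F : ℚ] ≤ D` the `L`-Selmer set of `X_(c(n))` over `F` is empty: no `L`-covering of `A` over `F`,
pulled back to `X_(c(n))`, has points over all the completions of `F` at finite places. In particular
`X_(c(n))` has no point of degree at most `D / [K:ℚ]` over `K`, and the Brauer-Manin obstruction over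
each of the fields `F` explains this (see `OverNumberFields`).

The proof combines the count of the Selmer classes and the local conditions of helper890 (trace to
`ℚ`, large common factors of `p + 1` and the level, independent conditions at the conjugates) with the
well distribution of the sequence modulo all `q ≤ N ^ κ'` (helper666).
-/

set_option autoImplicit false

namespace Pool.Agent.Results.MP_308fa9_nt.ThinRandomCurves

open MvPolynomial NumberField IsDedekindDomain Pool.Agent.TH954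

open scoped LinearAlgebra.Projectivization

/-- the curve `y² = x³ + a x + b` -/
def curve {F : Type} [Field F] (a b : F) : WeierstrassCurve F := ⟨0, 0, 0, a, b⟩

/-- homogeneous coordinates of a point in the projective plane -/
def coords {F : Type} [Field F] {W : WeierstrassCurve F} : W.toAffine.Point → Fin 3 → F
  | .zero => ![0, 1, 0]
  | .some x y _ => ![x, y, 1]

/-- `V` is a vector of homogeneous coordinates of a point of the curve `y² = x³ + a x + b`. -/
def OnCurve {k : Type} [Field k] (a b : ℤ) (V : Fin 3 → k) : Prop :=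
  V ≠ 0 ∧ V 1 ^ 2 * V 2 = V 0 ^ 3 + a * V 0 * V 2 ^ 2 + b * V 2 ^ 3

/-- The value at `V, T` of a polynomial in the coordinates `V i j` (`i : Fin r`, `j : Fin 3`) of `r`
plane cubics and in the coordinates `T x` (`x : Fin (m + 1)`) of `ℙᵐ`, its coefficients being mapped to
`k` by the homomorphism `φ`. -/
noncomputable def value {R k : Type} [CommRing R] [Field k] (φ : R →+* k) {r m : ℕ}
    (F : MvPolynomial ((Fin r × Fin 3) ⊕ Fin (m + 1)) R) (V : Fin r → Fin 3 → k)
    (T : Fin (m + 1) → k) : k :=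
  eval₂ φ (Sum.elim (fun ij => V ij.1 ij.2) T) F

/-- `F` is homogeneous of degree `d i` in the coordinates of the `i`-th plane cubic and of degree `e`
in `T`. -/
def Multihomogeneous {R : Type} [CommRing R] {r m : ℕ}
    (F : MvPolynomial ((Fin r × Fin 3) ⊕ Fin (m + 1)) R) (d : Fin r → ℕ) (e : ℕ) : Prop :=
  ∀ x ∈ F.support, (∀ i, ∑ j, x (Sum.inl (i, j)) = d i) ∧ ∑ s, x (Sum.inr s) = e

/-- The index type of the coefficients of `F_1, …, F_s`: a number `j`, the exponents of a monomial of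
degree `e j` in `T_0, …, T_m`, and for each `i` the exponents of a monomial of degree `d j i` in the
three coordinates `V i`. -/
abbrev Coeffs {r s : ℕ} (m : ℕ) (d : Fin s → Fin r → ℕ) (e : Fin s → ℕ) : Type :=
  Σ j : Fin s, (↥(Finset.piAntidiag (Finset.univ : Finset (Fin (m + 1))) (e j)) ×
    ((i : Fin r) → ↥(Finset.piAntidiag (Finset.univ : Finset (Fin 3)) (d j i))))

/-- The value of the form `F_j` with the coefficients `c`. -/
noncomputable def form {k : Type} [Field k] {r s m : ℕ} {d : Fin s → Fin r → ℕ}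
    {e : Fin s → ℕ} (c : Coeffs m d e → k) (j : Fin s) (V : Fin r → Fin 3 → k)
    (T : Fin (m + 1) → k) : k :=
  ∑ x : ↥(Finset.piAntidiag (Finset.univ : Finset (Fin (m + 1))) (e j)) ×
      ((i : Fin r) → ↥(Finset.piAntidiag (Finset.univ : Finset (Fin 3)) (d j i))),
    c ⟨j, x⟩ * ((∏ i, ∏ y, V i y ^ (x.2 i).1 y) * ∏ y, T y ^ x.1.1 y)

/-- The variety `X_c`, `Φ_l = 0`, `F_j = 0`, over `𝓞 K`, has a point over the extension `L` of `F`, where
`F` is an extension of `K`, whose components in the elliptic curves are the points `P i`. -/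
def IsOver {K : Type} [Field K] [NumberField K] {r s m q : ℕ} (a b : Fin r → ℤ)
    (Φ : Fin q → MvPolynomial ((Fin r × Fin 3) ⊕ Fin (m + 1)) (𝓞 K))
    {d : Fin s → Fin r → ℕ} {e : Fin s → ℕ} (c : Coeffs m d e → 𝓞 K) (F : Type) [Field F]
    [Algebra K F] (L : Type) [Field L] [Algebra F L]
    (P : ∀ i, ((curve (a i : F) (b i : F)).baseChange L).toAffine.Point) : Prop :=
  ∃ T : Fin (m + 1) → L, T ≠ 0 ∧
    (∀ l, value ((algebraMap F L).comp ((algebraMap K F).comp (algebraMap (𝓞 K) K))) (Φ l)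
      (fun i => coords (P i)) T = 0) ∧
    ∀ j, form (fun x => algebraMap F L (algebraMap K F (algebraMap (𝓞 K) K (c x)))) j
      (fun i => coords (P i)) T = 0

open scoped Classical in
/-- The `N`-Selmer set of `X_c` over the number field `F` (at the finite places), described by
cocycles: the `N`-coverings of `A = E_1 × … × E_r` whose pull-backs to `X_c` have points over the
completions `F_w` for all finite places `w`: there are a point of `X_c` over `F_w`, with components
`P i`, and points `Q i` with `N • Q i = P i` on which the Galois group of `F_w` acts by translation by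
the cocycles `ξ i`. -/
def Sel {K : Type} [Field K] [NumberField K] {r s m q : ℕ} (a b : Fin r → ℤ)
    (Φ : Fin q → MvPolynomial ((Fin r × Fin 3) ⊕ Fin (m + 1)) (𝓞 K))
    {d : Fin s → Fin r → ℕ} {e : Fin s → ℕ} (c : Coeffs m d e → 𝓞 K) (F : Type) [Field F]
    [NumberField F] [Algebra K F] (N : ℕ) :
    Set (∀ i : Fin r, (AlgebraicClosure F ≃ₐ[F] AlgebraicClosure F) →
      AlgPt (curve (a i : F) (b i : F)) F) :=
  {ξ | (∀ i, IsCocycle (curve (a i : F) (b i : F)) (ξ i)) ∧ (∀ i σ, N • ξ i σ = 0) ∧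
    ∀ w : HeightOneSpectrum (𝓞 F),
      ∃ (ι : AlgebraicClosure F →ₐ[F] AlgebraicClosure (w.adicCompletion F))
        (P : ∀ i, ((curve (a i : F) (b i : F)).baseChange (w.adicCompletion F)).toAffine.Point)
        (Q : ∀ i, AlgPt (curve (a i : F) (b i : F)) (w.adicCompletion F)),
        IsOver a b Φ c F (w.adicCompletion F) P ∧
        (∀ i, N • Q i = incl (curve (a i : F) (b i : F)) (w.adicCompletion F) (P i)) ∧
        ∀ i σ τ, Compat ι σ τ → pm (curve (a i : F) (b i : F)) ι (ξ i τ) =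
          act (curve (a i : F) (b i : F)) σ (Q i) - Q i}

/-- `X_c` has a point over the extension `F` of `K`. -/
def HasPoint {K : Type} [Field K] [NumberField K] {r s m q : ℕ} (a b : Fin r → ℤ)
    (Φ : Fin q → MvPolynomial ((Fin r × Fin 3) ⊕ Fin (m + 1)) (𝓞 K))
    {d : Fin s → Fin r → ℕ} {e : Fin s → ℕ} (c : Coeffs m d e → 𝓞 K) (F : Type) [Field F]
    [Algebra K F] : Prop :=
  ∃ (P : ∀ i, (curve (a i : F) (b i : F)).toAffine.Point) (T : Fin (m + 1) → F), T ≠ 0 ∧
    (∀ l, value ((algebraMap K F).comp (algebraMap (𝓞 K) K)) (Φ l)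
      (fun i => coords (P i)) T = 0) ∧
    ∀ j, form (fun x => algebraMap K F (algebraMap (𝓞 K) K (c x))) j
      (fun i => coords (P i)) T = 0

/-- `∑ t ∈ G, u t * n ^ t` is a generalised polynomial with leading exponent `θ`, positive and not an
integer, and positive leading coefficient. -/
def Admissible (G : Finset ℝ) (u : ℝ → ℝ) (θ : ℝ) : Prop :=
  θ ∈ G ∧ (∀ t ∈ G, t ≤ θ) ∧ 0 < θ ∧ (∀ k : ℕ, θ ≠ k) ∧ 0 < u θ

/-- The vector of the elements of `𝓞 K` whose coordinates with respect to the integral basis `ω` are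
the integral parts of the values at `n` of the generalised polynomials. -/
noncomputable def coeffs {K : Type} [Field K] [NumberField K] {n₀ : ℕ}
    (ω : Module.Basis (Fin n₀) ℤ (𝓞 K)) {ι : Type} (G : ι × Fin n₀ → Finset ℝ)
    (u : ι × Fin n₀ → ℝ → ℝ) (n : ℕ) (x : ι) : 𝓞 K :=
  ∑ i, ⌊∑ t ∈ G (x, i), u (x, i) t * (n : ℝ) ^ t⌋ • ω i

/-- There is `η > 0` such that for every `δ > 0` and every large `N` there is a squarefree level `L`,
`log L ≤ (log N) ^ δ`, such that for all but `N ^ (1 - η)` of the integers `n` between `N` and `2 N` the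
variety `X_c`, where `c` is the vector of the values at `n`, has no point over `F`, and its `L`-Selmer set
over `F` is empty, for all the number fields `F` over `K` with `[F : ℚ] ≤ D`. -/
def AlmostAllEmpty {K : Type} [Field K] [NumberField K] {n₀ : ℕ}
    (ω : Module.Basis (Fin n₀) ℤ (𝓞 K)) {r s m q : ℕ} (a b : Fin r → ℤ)
    (Φ : Fin q → MvPolynomial ((Fin r × Fin 3) ⊕ Fin (m + 1)) (𝓞 K))
    (d : Fin s → Fin r → ℕ) (e : Fin s → ℕ) (D : ℕ) (G : Coeffs m d e × Fin n₀ → Finset ℝ)
    (u : Coeffs m d e × Fin n₀ → ℝ → ℝ) : Prop :=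
  ∃ η : ℝ, 0 < η ∧ ∀ δ : ℝ, 0 < δ → ∃ N₀ : ℕ, ∀ N : ℕ, N₀ ≤ N →
    ∃ L : ℕ, 1 ≤ L ∧ Squarefree L ∧ Real.log L ≤ Real.log N ^ δ ∧
      (({n : ℕ | N < n ∧ n ≤ 2 * N ∧
        ¬ ∀ (F : Type) [Field F] [NumberField F] [Algebra K F], Module.finrank ℚ F ≤ D →
          ¬ HasPoint a b Φ (coeffs ω G u n) F ∧ Sel a b Φ (coeffs ω G u n) F L = ∅}.ncard : ℕ) : ℝ) ≤
        (N : ℝ) ^ (1 - η)

/-- For all large primes `p` (with `p ≡ -1` modulo some `M`), all finite fields `k` of characteristic
`p` with at most `p ^ D` elements and all homomorphisms `𝓞 K → k` the fibres of the reduction of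
`𝒯 = {Φ_l = 0}` over the points of `A` over `k` have at most `B |k| ^ κ` points over `k`. -/
def FewPoints {K : Type} [Field K] [NumberField K] {r m q : ℕ} (a b : Fin r → ℤ)
    (Φ : Fin q → MvPolynomial ((Fin r × Fin 3) ⊕ Fin (m + 1)) (𝓞 K)) (κ : ℕ) (B : ℝ)
    (D : ℕ) : Prop :=
  ∃ M p₁ : ℕ, 0 < M ∧ ∀ (p : ℕ) [Fact p.Prime], p₁ ≤ p → M ∣ p + 1 →
    ∀ (k : Type) [Field k] [Fintype k] [Algebra (ZMod p) k], Fintype.card k ≤ p ^ D →
    ∀ (φ : 𝓞 K →+* k) (V : Fin r → Fin 3 → k), (∀ i, OnCurve (a i) (b i) (V i)) →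
      (({P : ℙ k (Fin (m + 1) → k) | ∀ l, value φ (Φ l) V P.rep = 0}.ncard : ℕ) : ℝ) ≤
        B * (Fintype.card k : ℝ) ^ κ

/-- `y² = x³ + a x + b` is an elliptic curve over `ℚ` which has `p` affine points modulo `p` (is
supersingular) for the primes `p ≡ -1` modulo some `M` which do not divide some `D`. This holds for
the elliptic curves over `ℚ` with complex multiplication, and only for them. -/
def Supersingular (a b : ℤ) : Prop :=
  4 * a ^ 3 + 27 * b ^ 2 ≠ 0 ∧ ∃ M D : ℕ, 0 < M ∧ 0 < D ∧ ∀ p : ℕ, p.Prime → ¬ p ∣ D → M ∣ p + 1 →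
    Nat.card {z : ZMod p × ZMod p // z.2 ^ 2 = z.1 ^ 3 + a * z.1 + b} = p

theorem supersingular_of (a b : ℤ) (h : a * b = 0) (h0 : a ≠ 0 ∨ b ≠ 0) : Supersingular a b := by
  refine ⟨?_, 12, 1, by norm_num, one_pos, fun p hp _ h12 =>
    Pool.Agent.H35R6.DCCNT.cnt p a b hp h12 h⟩
  exact Pool.Agent.N89.CI.disc_ne (r := 1) (a := fun _ => a) (b := fun _ => b)
    (fun _ => ⟨h, h0⟩) 0

theorem general {K : Type} [Field K] [NumberField K] {n₀ : ℕ}
    (ω : Module.Basis (Fin n₀) ℤ (𝓞 K)) (r : ℕ) (a b : Fin r → ℤ)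
    (hE : ∀ i, Supersingular (a i) (b i))
    (κ s D : ℕ) (hD : 1 ≤ D) (hs : s ≤ r + κ) (hr : 2 * D * (r + κ - s) < r)
    (d : Fin s → Fin r → ℕ) (e : Fin s → ℕ) (hd : ∀ j i, D ≤ d j i + 1) (he : ∀ j, D ≤ e j + 1)
    (m q : ℕ)
    (Φ : Fin q → MvPolynomial ((Fin r × Fin 3) ⊕ Fin (m + 1)) (𝓞 K))
    (d' : Fin q → Fin r → ℕ) (e' : Fin q → ℕ) (hΦ : ∀ l, Multihomogeneous (Φ l) (d' l) (e' l))
    (B : ℝ) (hpts : FewPoints a b Φ κ B D) (G : Coeffs m d e × Fin n₀ → Finset ℝ)
    (u : Coeffs m d e × Fin n₀ → ℝ → ℝ) (θ : Coeffs m d e × Fin n₀ → ℝ)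
    (hG : ∀ y, Admissible (G y) (u y) (θ y)) (hθ : Function.Injective θ) :
    AlmostAllEmpty ω a b Φ d e D G u := by
  classical
  obtain ⟨M, p₁, hM, hpts⟩ := hpts
  choose hdisc M₁ D₁ hM₁ hD₁ hss using hE
  have hs1 : 1 ≤ s := by
    rcases Nat.eq_zero_or_pos s with rfl | h
    · exfalso
      have h1 : r ≤ 2 * D * (r + κ - 0) := by
        rw [Nat.sub_zero]
        nlinarith [Nat.zero_le (D * κ), Nat.zero_le (r * (D - 1)), Nat.mul_le_mul hD (le_refl r)]
      omega
    · exact h
  have hne1 : Nonempty (Coeffs m d e) := Pool.Agent.N89.CI.nonempty_idx m d e hs1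
  have hn₀ : 0 < n₀ := by
    have h1 : Module.finrank ℤ (𝓞 K) = n₀ := by
      rw [Module.finrank_eq_card_basis ω, Fintype.card_fin]
    have h2 : 0 < Module.finrank ℤ (𝓞 K) := by
      rw [NumberField.RingOfIntegers.rank]
      exact Module.finrank_pos
    omega
  have hne : Nonempty (Coeffs m d e × Fin n₀) := ⟨(hne1.some, ⟨0, hn₀⟩)⟩
  obtain ⟨⟨κ', hκ', hw⟩, -⟩ := Pool.Agent.N666.TM.fl_well (F := G) (a := u) (c := θ) hG hθ
  set x : ℕ → Coeffs m d e × Fin n₀ → ℤ := Pool.Agent.N666.TM.fl G u with hx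
  have hpar : ∀ (n : ℕ) (F : Type) [Field F] [Algebra K F],
      Pool.Agent.N890.DU.parF F ω (x n) =
        fun y => algebraMap K F (algebraMap (𝓞 K) K (coeffs ω G u n y)) := by
    intro n F _ _
    rfl
  have hsub : ((r + κ - s : ℕ) : ℝ) = (r : ℝ) + κ - s := by
    push_cast [Nat.cast_sub hs]
    ring
  have hpos : 0 < (r : ℝ) / 2 - D * ((r : ℝ) + κ - s) := by
    have h1 : ((2 * D * (r + κ - s) : ℕ) : ℝ) < r := by exact_mod_cast hr
    rw [Nat.cast_mul, Nat.cast_mul, hsub, Nat.cast_ofNat] at h1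
    linarith
  set β : ℝ := (r : ℝ) / 2 - D * ((r : ℝ) + κ - s) with hβ
  refine ⟨min κ' 1 / 2 * (β / 2), by positivity, fun δ hδ => ?_⟩
  obtain ⟨H₀, hH₀, hH⟩ := Pool.Agent.N54.TQ.mainDW K r m κ s D n₀ hD hs
    (by rw [← mul_assoc]; exact hr) a b hdisc (∏ i, M₁ i)
    (∏ i, D₁ i) (Finset.prod_pos fun i _ => hM₁ i) (Finset.prod_pos fun i _ => hD₁ i)
    (fun i p hp hpD hpM => hss i p hp
      (fun h => hpD (h.trans (Finset.dvd_prod_of_mem _ (Finset.mem_univ i))))
      ((Finset.dvd_prod_of_mem _ (Finset.mem_univ i)).trans hpM)) Φ d' e'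
    hΦ ω d e hd he B M p₁ hM (fun p _ hp hM => hpts p hp hM) (β / 2) δ (by positivity) hδ
  have key := Pool.Agent.N54.TQ.toN (x := x) hκ' hw (τ := β / 2) (by positivity) (H₀ := H₀)
    (Q := fun H L => 1 ≤ L ∧ Squarefree L ∧ Real.log L ≤ Real.log H ^ δ)
    (Bad := fun L c => Pool.Agent.N890.DU.SelD a b
      (Sum.elim (fun l => Pool.Agent.N89.CI.lift0 (Pool.Agent.N89.CI.Idx m d e) (Φ l))
        (Pool.Agent.N89.CI.gen (𝓞 K) m d e)) ω D L c) (by
      intro H hH'
      obtain ⟨L, hL1, hL2, hlog, hcard⟩ := hH H hH'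
      refine ⟨L, ⟨hL1, hL2, hlog⟩, fun S x hw => ?_⟩
      refine (hcard S x hw).trans (le_of_eq ?_)
      congr 2
      rw [Nat.cast_mul, hsub, hβ]
      ring)
  obtain ⟨N₀, hN₀⟩ := key
  refine ⟨N₀, fun N hN => ?_⟩
  obtain ⟨H, hH3, hHN, L, ⟨hL1, hL2, hL3⟩, hcard⟩ := hN₀ N hN
  refine ⟨L, hL1, hL2, hL3.trans ?_, le_trans (Nat.cast_le.2 (Set.ncard_le_ncard ?_ ?_)) hcard⟩
  · have hH3R : (3 : ℝ) ≤ H := by exact_mod_cast hH3
    have hHNR : (H : ℝ) ≤ N := by exact_mod_cast hHN
    exact Real.rpow_le_rpow (Real.log_nonneg (by linarith)) (Real.log_le_log (by linarith) hHNR)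
      hδ.le
  · rintro n ⟨hn1, hn2, h⟩
    refine ⟨hn1, hn2, ?_⟩
    push Not at h
    obtain ⟨F, _, _, _, hF, h⟩ := h
    refine ⟨F, inferInstance, inferInstance, inferInstance, hF, ?_⟩
    rw [hpar n F]
    have h1 : HasPoint a b Φ (coeffs ω G u n) F ∨ (Sel a b Φ (coeffs ω G u n) F L).Nonempty := by
      by_contra hcon
      push Not at hcon
      exact (h hcon.1).ne_empty hcon.2
    rcases h1 with ⟨P, T, hT, h1, h2⟩ | ⟨ξ, h1, h2, h3⟩
    · refine Pool.Agent.N890.DU.isSel_of_point _ a b hdisc _ L hL1 _ P T hT fun l => ?_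
      rcases l with l | j
      · simp only [Sum.elim_inl]
        rw [Pool.Agent.N89.CI.valP_lift0]
        exact h1 l
      · simp only [Sum.elim_inr]
        rw [Pool.Agent.N89.CI.valP_gen]
        exact h2 j
    · refine ⟨ξ, h1, h2, fun w => ?_⟩
      obtain ⟨ι, P, Q, ⟨T, hT, h4, h5⟩, h6, h7⟩ := h3 w
      refine ⟨ι, P, Q, ⟨T, hT, fun l => ?_⟩, h6, h7⟩
      rcases l with l | j
      · simp only [Sum.elim_inl]
        rw [Pool.Agent.N89.CI.valP_lift0]
        exact h4 l
      · simp only [Sum.elim_inr]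
        rw [Pool.Agent.N89.CI.valP_gen]
        exact h5 j
  · exact (Finset.Ioc N (2 * N)).finite_toSet.subset fun n hn =>
      Finset.mem_coe.2 (Finset.mem_Ioc.2 ⟨hn.1, hn.2.1⟩)

/-- **Almost all members of thin sequences of varieties `X_c` with `D dim X_c < r / 2` over `K` have empty
Selmer sets of one small level over all number fields `F` with `[F : ℚ] ≤ D`, unconditionally.** -/
theorem result (K : Type) [Field K] [NumberField K] (n₀ : ℕ)
    (ω : Module.Basis (Fin n₀) ℤ (𝓞 K)) (r : ℕ) (a b : Fin r → ℤ)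
    (hE : ∀ i, Supersingular (a i) (b i))
    (κ s D : ℕ) (hD : 1 ≤ D) (hs : s ≤ r + κ) (hr : 2 * D * (r + κ - s) < r)
    (d : Fin s → Fin r → ℕ) (e : Fin s → ℕ) (hd : ∀ j i, D ≤ d j i + 1) (he : ∀ j, D ≤ e j + 1) :
    -- (0) the curves `y² = x³ + a x` and `y² = x³ + b`
    (∀ a b : ℤ, a * b = 0 → (a ≠ 0 ∨ b ≠ 0) → Supersingular a b) ∧
    -- the general family
    (∀ (m q : ℕ) (Φ : Fin q → MvPolynomial ((Fin r × Fin 3) ⊕ Fin (m + 1)) (𝓞 K))
      (d' : Fin q → Fin r → ℕ) (e' : Fin q → ℕ), (∀ l, Multihomogeneous (Φ l) (d' l) (e' l)) →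
      ∀ B : ℝ, FewPoints a b Φ κ B D →
      ∀ (G : Coeffs m d e × Fin n₀ → Finset ℝ) (u : Coeffs m d e × Fin n₀ → ℝ → ℝ)
        (θ : Coeffs m d e × Fin n₀ → ℝ), (∀ y, Admissible (G y) (u y) (θ y)) →
        Function.Injective θ → AlmostAllEmpty ω a b Φ d e D G u) ∧
    -- `𝒯 = A × ℙ^κ`
    (∀ (G : Coeffs κ d e × Fin n₀ → Finset ℝ) (u : Coeffs κ d e × Fin n₀ → ℝ → ℝ)
        (θ : Coeffs κ d e × Fin n₀ → ℝ), (∀ y, Admissible (G y) (u y) (θ y)) →
        Function.Injective θ →
        AlmostAllEmpty (m := κ) ω a b (fun l : Fin 0 => l.elim0) d e D G u) ∧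
    -- `𝒯 = A × Y` for a hypersurface `Y : f = 0` in `ℙ^(κ+1)` over `K`
    (∀ (g : ℕ) (f : MvPolynomial (Fin (κ + 2)) (𝓞 K)), f.IsHomogeneous g → f ≠ 0 →
      ∀ (G : Coeffs (κ + 1) d e × Fin n₀ → Finset ℝ) (u : Coeffs (κ + 1) d e × Fin n₀ → ℝ → ℝ)
        (θ : Coeffs (κ + 1) d e × Fin n₀ → ℝ), (∀ y, Admissible (G y) (u y) (θ y)) →
        Function.Injective θ →
        AlmostAllEmpty (m := κ + 1) ω a b (fun _ : Fin 1 => rename Sum.inr f) d e D G u) := by
  refine ⟨supersingular_of, ?_, ?_, ?_⟩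
  · intro m q Φ d' e' hΦ B hB G u θ hG hθ
    exact general ω r a b hE κ s D hD hs hr d e hd he m q Φ d' e' hΦ B hB G u θ hG hθ
  · intro G u θ hG hθ
    refine general ω r a b hE κ s D hD hs hr d e hd he κ 0 _ (fun l => l.elim0)
      (fun l => l.elim0) (fun l => l.elim0) (3 / 2) ⟨1, 3, one_pos, ?_⟩ G u θ hG hθ
    intro p hp hp3 _ k _ _ _ _ φ V hV
    have h1 : {P : ℙ k (Fin (κ + 1) → k) |
        ∀ l : Fin 0, value φ (l.elim0 : MvPolynomial ((Fin r × Fin 3) ⊕ Fin (κ + 1)) (𝓞 K)) V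
          P.rep = 0} = Set.univ :=
      Set.eq_univ_of_forall fun P l => l.elim0
    have h3 : 3 ≤ Nat.card k := by
      rw [Nat.card_eq_fintype_card]
      refine hp3.trans ?_
      have h4 := Fintype.card_le_of_injective _ (algebraMap (ZMod p) k).injective
      rwa [ZMod.card] at h4
    rw [h1, Set.ncard_univ]
    have h2 := Pool.Agent.N89.CI.density_fun (k := k) (m := κ) (κ := κ) h3 rfl
    rwa [Nat.card_eq_fintype_card (α := k)] at h2
  · intro g f hf hf0 G u θ hG hθ
    obtain ⟨p₁, hp₁⟩ := Pool.Agent.N890.DU.hyp_countK κ g f hf hf0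
    refine general ω r a b hE κ s D hD hs hr d e hd he (κ + 1) 1 _ (fun _ _ => 0)
      (fun _ => g) (fun _ => ?_) (2 * g) ⟨1, p₁, one_pos, ?_⟩ G u θ hG hθ
    · intro x hx
      classical
      obtain ⟨y, hy1, hy2⟩ := coeff_rename_ne_zero _ _ _ (mem_support_iff.1 hx)
      subst hy1
      refine ⟨fun i => Finset.sum_eq_zero fun j _ => ?_, ?_⟩
      · rw [Finsupp.mapDomain_of_notMem_range]
        simp
      · have h1 := hf hy2
        rw [Finsupp.weight_apply, Finsupp.sum_fintype _ _ (fun _ => by simp)] at h1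
        rw [← h1]
        refine Finset.sum_congr rfl fun i _ => ?_
        rw [Finsupp.mapDomain_apply Sum.inr_injective]
        simp
    · intro p hp hp1 _ k _ _ _ _ φ V hV
      refine le_trans (le_of_eq ?_) (hp₁ p hp1 k φ)
      congr 2
      ext P
      simp only [Set.mem_ofPred_eq]
      unfold value
      rw [eval₂_rename]
      simp only [Sum.elim_comp_inr]
      exact ⟨fun h => h 0, fun h _ => h⟩

end Pool.Agent.Results.MP_308fa9_nt.ThinRandomCurves
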