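import Pool.Agent.N546.ZT.FD
import Pool.Agent.Results.MP_308fa9_nt.EmptySetsOfTwistedCoverings

/-!
# Brauer-Manin sets of twists of cyclic coverings in thin sequences: one null set for all coverings

Let `b y ^ 2 = ∏ k, G k (z, w)` be a hyperelliptic curve `D` over `ℚ`, where the `G k` are the
homogenisations of polynomials `g k` with integral coefficients, of even degrees, pairwise coprime.
Let `h` be a polynomial with integral coefficients, coprime to the `g k`, and `H` its homogenisation.
For a nonzero integer `a` and `m ≥ 2`, `m ∣ deg h`, consider the curve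

  `C a : b y ^ 2 = ∏ k, G k (z, w)`, `a x ^ m = H (z, w)`,

a cyclic covering of degree `m` of `D`; for different `a` these coverings are twists of each other. The
classes of the quaternion algebras `(G k, e)`, `e` a nonzero integer, belong to the Brauer group of `C a`.
The starting file `EmptySetsOfTwistedCoverings` shows for almost all squarefree `a` that the adelic points
of `C a` orthogonal to these classes have persistent classes; so if there are no persistent classes,
for example for `D : y² = (z² + 51) (z² - 1)` and `h = (z² + 1) (z² - 17) (z² + 17)`, there are no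
orthogonal adelic points, although the curves can have points everywhere locally.

Let `z_0, z_1, z_2, …` be sequences of integers such that all finite subfamilies are uniformly
distributed modulo all `q`, along the sets `S₁ N ⊆ (N, 2 N]` and `S₂ N ⊆ (N, 2 N]`, `N → ∞`. For example
`S₁ N` and `S₂ N` can be the sets of all integers and of all primes of `(N, 2 N]` and `z_l(t) = ⌊P_l(t)⌋`,
where the `P_l(t) = ∑ a_x t ^ x` are generalised polynomials (finitely many real exponents, real
coefficients) with distinct leading exponents which are positive and not integers and have positive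
coefficients, such as `P_l(t) = t ^ (2 l + √2)`.

**Theorem.** (1) For all data `b`, `g`, `h` there are finitely many sets of primes with divergent sums of
reciprocals such that this is true for ALL integers `a`, squarefree or not, with an exact prime
divisor in each of these sets.

(2) There is ONE set `E` of integers of density zero relative to the sets `S₁ N` and to the sets `S₂ N`,
such that this is true for ALL data `b`, `g`, `h` and all products `a = u ∏ z_l(t) ^ e_l` (`u ≠ 0`,
some `e_l = 1`) for all but finitely many integers `t` outside `E`. The set `E` depends on the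
`z_l` only.

Proof. The starting file considers almost all squarefree `a`. Its local analysis works at the exact
prime divisors of an arbitrary integer `a`: the property needs one exact prime divisor in each of
finitely many sets of primes of positive density (theorem of Chebotarev), which depend on `g`, `h`, `b` only.
By the uniform distribution of `z_0(t), …, z_k(t)` Turan's sieve gives exact prime divisors of each
`z_l(t)` in each of these sets, not dividing the others, for almost all `t`, and a diagonal argument gives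
one set `E` for the countably many data and all exponents. The integer parts of generalised
polynomials are uniformly distributed by estimates of exponential sums (engine of helper666).
-/

set_option autoImplicit false

namespace Pool.Agent.Results.MP_308fa9_nt.ThinSequencesOfCoverings

open Polynomial Pool.Agent.R925.FD
open Pool.Agent.Results.MP_308fa9_nt.EmptySetsOfTwistedCoverings (Admissible HasClass)

/-- All finite subfamilies of the sequences `z 0, z 1, …` of integers are uniformly distributed modulo all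
`q`, along the sets `S N`. -/
def UD (S : ℕ → Finset ℕ) (z : ℕ → ℕ → ℤ) : Prop :=
  ∀ (r : ℕ) (σ : Fin r → ℕ), Function.Injective σ → ∀ q : ℕ, 1 ≤ q → ∀ ρ : Fin r → ℤ,
    Filter.Tendsto (fun N => ({t : ℕ | t ∈ S N ∧ ∀ i, (q : ℤ) ∣ z (σ i) t - ρ i}.ncard : ℝ) / (S N).card)
      Filter.atTop (nhds (1 / (q : ℝ) ^ r))

/-- `c` is the largest exponent of the generalised polynomial `∑ a_x t ^ x`; it is positive and not an
integer and has a positive coefficient. -/
def Leading (F : Finset ℝ) (a : ℝ → ℝ) (c : ℝ) : Prop :=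
  c ∈ F ∧ (∀ x ∈ F, x ≤ c) ∧ 0 < c ∧ (∀ m : ℕ, c ≠ m) ∧ 0 < a c

/-- The integer parts of the values of the generalised polynomials `P_l(t) = ∑ a_x t ^ x`. -/
noncomputable def floors (F : ℕ → Finset ℝ) (a : ℕ → ℝ → ℝ) (l t : ℕ) : ℤ :=
  ⌊∑ x ∈ F l, a l x * (t : ℝ) ^ x⌋

/-- The integer `u ∏ z_l(t) ^ e_l`, `l ∈ s`. -/
def twist (z : ℕ → ℕ → ℤ) (s : Finset ℕ) (e : ℕ → ℕ) (u : ℤ) (t : ℕ) : ℤ :=
  u * ∏ l ∈ s, z l t ^ e l

/-- `E` has density zero relative to the sets `S N`. -/
def NullIn (S : ℕ → Finset ℕ) (E : Set ℕ) : Prop :=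
  ∀ ε : ℝ, 0 < ε → ∃ N₀ : ℕ, ∀ N : ℕ, N₀ ≤ N →
    ({t : ℕ | t ∈ S N ∧ t ∈ E}.ncard : ℝ) ≤ ε * (S N).card

/-- The property `P` is satisfied for all integers `a` which have an exact prime divisor in each of
finitely many sets of primes with divergent sums of reciprocals. -/
def LocalCriterion (P : ℤ → Prop) : Prop :=
  ∃ (r : ℕ) (Q : Fin r → Set ℕ), (∀ i, ∀ p ∈ Q i, p.Prime) ∧
    (∀ i, ∀ B : ℝ, ∃ y : ℕ, B ≤ ∑ p ∈ Finset.range y,
      Set.indicator (Q i) (fun p : ℕ => 1 / (p : ℝ)) p) ∧
    ∀ a : ℤ, (∀ i, ∃ p ∈ Q i, (p : ℤ) ∣ a ∧ ¬ (p : ℤ) ^ 2 ∣ a) → P a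

/-- For all products `a = u ∏ z_l(t) ^ e_l` with `u ≠ 0` and some `e_l = 1` the property `P a` holds for
all but finitely many integers `t` outside `E`. -/
def ForTwists (z : ℕ → ℕ → ℤ) (E : Set ℕ) (P : ℤ → Prop) : Prop :=
  ∀ (s : Finset ℕ) (e : ℕ → ℕ) (u : ℤ), u ≠ 0 → (∃ l ∈ s, e l = 1) →
    {t : ℕ | t ∉ E ∧ ¬ P (twist z s e u t)}.Finite

/-- On the curves `C a` every orthogonal adelic point has a persistent class. -/
def OnlyPersistent {K : Type} [Fintype K] [DecidableEq K] (b : ℤ) (g : K → ℤ[X]) (h : ℤ[X]) (a : ℤ) :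
    Prop :=
  ∀ m, 2 ≤ m → m ∣ h.natDegree → ∀ P : AdelicPoint m b a g h, Orthogonal P →
    ∃ n : K → ℤ, HasClass P n ∧ Persistent 2 g h (fun k => (n k : ℚ))

/-- The curves `C a` have no orthogonal adelic points and no rational points. -/
def EmptySet {K : Type} [Fintype K] [DecidableEq K] (b : ℤ) (g : K → ℤ[X]) (h : ℤ[X]) (a : ℤ) :
    Prop :=
  ∀ m, 2 ≤ m → m ∣ h.natDegree → ∀ P : AdelicPoint m b a g h, ¬ Orthogonal P

lemma LocalCriterion.mono {P P' : ℤ → Prop} (h : LocalCriterion P) (h' : ∀ a, P a → P' a) :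
    LocalCriterion P' := by
  obtain ⟨r, Q, h1, h2, h3⟩ := h
  exact ⟨r, Q, h1, h2, fun a ha => h' a (h3 a ha)⟩

lemma ForTwists.mono {z : ℕ → ℕ → ℤ} {E : Set ℕ} {P P' : ℤ → Prop}
    (h : ForTwists z E P) (h' : ∀ a, P a → P' a) : ForTwists z E P' := fun s e u hu hs =>
  (h s e u hu hs).subset fun _ ⟨h1, h2⟩ => ⟨h1, fun h3 => h2 (h' _ h3)⟩

section
variable {K : Type} [Fintype K] [DecidableEq K] {b : ℤ} {g : K → ℤ[X]} {h : ℤ[X]} {a : ℤ}

lemma only_of (hp : Pool.Agent.N546.ZT.BMProp b g h a) : OnlyPersistent b g h a := by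
  intro m hm hmh P hP
  obtain ⟨n, h3, h4, h5, h6, h7⟩ := hp m hm hmh P hP
  exact ⟨n, ⟨h3, h4, h6, h7⟩, h5⟩

lemma empty_of (hno : ∀ δ : K → ℚ, IsClass 2 b δ → ¬ Persistent 2 g h δ)
    (hp : Pool.Agent.N546.ZT.BMProp b g h a) : EmptySet b g h a := by
  intro m hm hmh P hP
  obtain ⟨n, h3, h4, h5, h6, h7⟩ := hp m hm hmh P hP
  exact hno _ h4 h5

end

theorem result :
    (∀ (K : Type) [Fintype K] [DecidableEq K] (b : ℤ) (g : K → ℤ[X]) (h : ℤ[X]), Admissible b g h →
      LocalCriterion (OnlyPersistent b g h) ∧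
      ((∀ δ : K → ℚ, IsClass 2 b δ → ¬ Persistent 2 g h δ) → LocalCriterion (EmptySet b g h))) ∧
    (∀ S₁ S₂ : ℕ → Finset ℕ, (∀ N, S₁ N ⊆ Finset.Ioc N (2 * N)) →
      (∀ N, S₂ N ⊆ Finset.Ioc N (2 * N)) → ∀ z : ℕ → ℕ → ℤ, UD S₁ z → UD S₂ z →
      ∃ E : Set ℕ, NullIn S₁ E ∧ NullIn S₂ E ∧
        ∀ (r : ℕ) (b : ℤ) (g : Fin r → ℤ[X]) (h : ℤ[X]), Admissible b g h →
          ForTwists z E (OnlyPersistent b g h) ∧
          ((∀ δ : Fin r → ℚ, IsClass 2 b δ → ¬ Persistent 2 g h δ) →
            ForTwists z E (EmptySet b g h))) ∧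
    (∀ (F : ℕ → Finset ℝ) (a : ℕ → ℝ → ℝ) (c : ℕ → ℝ), (∀ l, Leading (F l) (a l) (c l)) →
      Function.Injective c → UD (fun N => Finset.Ioc N (2 * N)) (floors F a) ∧
        UD (fun N => (Finset.Ioc N (2 * N)).filter Nat.Prime) (floors F a)) ∧
    Admissible 1 exg exh ∧ (∀ δ, IsClass 2 1 δ → ¬ Persistent 2 exg exh δ) ∧
    ∀ (a : ℤ) (m : ℕ), m ≠ 0 → Nonempty (AdelicPoint m 1 a exg exh) := by
  refine ⟨fun K _ _ b g h hA => ?_, fun S₁ S₂ hS₁ hS₂ z h₁ h₂ => ?_,
    fun F a c hF hc => Pool.Agent.N924.TH.ud_fl hF hc,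
    EmptySetsOfTwistedCoverings.result.2.1, EmptySetsOfTwistedCoverings.result.2.2.1,
    EmptySetsOfTwistedCoverings.result.2.2.2.1⟩
  · have hcrit : LocalCriterion (Pool.Agent.N546.ZT.BMProp b g h) :=
      Pool.Agent.N546.ZT.bm_crit hA.b_ne hA.g_ne hA.h_ne hA.deg hA.coprime hA.coprime_h
    exact ⟨hcrit.mono fun _ => only_of, fun hno => hcrit.mono fun _ => empty_of hno⟩
  · obtain ⟨E, h1, h2, h3⟩ := Pool.Agent.N546.ZT.thin_adm hS₁ hS₂ h₁ h₂
      Pool.Agent.N546.ZT.countable_data (fun d => Admissible d.2.2.1 d.2.2.2.1 d.2.2.2.2)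
      (fun d x => Pool.Agent.N546.ZT.BMProp d.2.2.1 d.2.2.2.1 d.2.2.2.2 x)
      (fun d hA => Pool.Agent.N546.ZT.bm_crit hA.b_ne hA.g_ne hA.h_ne hA.deg hA.coprime
        hA.coprime_h)
    refine ⟨E, h1, h2, fun r b g h hA => ?_⟩
    have h4 : ForTwists z E (Pool.Agent.N546.ZT.BMProp b g h) := h3 ⟨r, 0, b, g, h⟩ hA
    exact ⟨h4.mono fun _ => only_of, fun hno => h4.mono fun _ => empty_of hno⟩

end Pool.Agent.Results.MP_308fa9_nt.ThinSequencesOfCoverings
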